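import Mathlib

/-!
# Unique minimal-norm interpolants and extreme points of the unit ball of `H^∞`

Definitions for problem MP_c109b8_an and the statements of the steps.
-/

set_option autoImplicit false

namespace Pool.Agent.KS6_57.NP

open Complex ComplexConjugate Metric

noncomputable section

/-- `g` belongs to `H^∞`: analytic and bounded on the open unit disc. -/
def InHinf (g : ℂ → ℂ) : Prop :=
  DifferentiableOn ℂ g (ball 0 1) ∧ ∃ M : ℝ, ∀ w ∈ ball (0:ℂ) 1, ‖g w‖ ≤ M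

/-- The supremum norm on the open unit disc. -/
def supNorm (g : ℂ → ℂ) : ℝ := ⨆ w : ball (0:ℂ) 1, ‖g w‖

/-- A Blaschke sequence: distinct points of the open unit disc with `∑ (1 - |z_n|) < ∞`. -/
def IsBlaschkeSequence (z : ℕ → ℂ) : Prop :=
  Function.Injective z ∧ (∀ n, ‖z n‖ < 1) ∧ Summable (fun n => 1 - ‖z n‖)

/-- Blaschke products `e^{iθ} w^k ∏_j (|a_j|/a_j) (a_j - w)/(1 - conj(a_j) w)`, where `(a_j)` is a
finite or infinite family of nonzero points of the disc (repetitions allowed) with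
`∑ (1 - |a_j|) < ∞`. -/
def IsBlaschkeProduct (B : ℂ → ℂ) : Prop :=
  ∃ (θ : ℝ) (k : ℕ) (ι : Type) (_ : Countable ι) (a : ι → ℂ),
    (∀ j, a j ≠ 0 ∧ ‖a j‖ < 1) ∧ Summable (fun j => 1 - ‖a j‖) ∧
    ∀ w ∈ ball (0:ℂ) 1, ∃ P : ℂ,
      HasProd (fun j => ((‖a j‖ : ℂ) / a j) * ((a j - w) / (1 - conj (a j) * w))) P ∧
      B w = Complex.exp (θ * I) * w ^ k * P

/-- `g` is a minimal-norm interpolant of `f` on `z`. -/
def IsMinimalNormInterpolant (f : ℂ → ℂ) (z : ℕ → ℂ) (g : ℂ → ℂ) : Prop :=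
  InHinf g ∧ (∀ n, g (z n) = f (z n)) ∧
  ∀ h : ℂ → ℂ, InHinf h → (∀ n, h (z n) = f (z n)) → supNorm g ≤ supNorm h

/-- The minimal-norm interpolant `g` of `f` on `z` is unique (as a function on the disc). -/
def IsUniqueMinimalNormInterpolant (f : ℂ → ℂ) (z : ℕ → ℂ) (g : ℂ → ℂ) : Prop :=
  IsMinimalNormInterpolant f z g ∧
  ∀ h : ℂ → ℂ, IsMinimalNormInterpolant f z h → Set.EqOn h g (ball 0 1)

/-- `g` is an extreme point of the closed unit ball of `H^∞`. -/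
def IsExtremePoint (g : ℂ → ℂ) : Prop :=
  DifferentiableOn ℂ g (ball 0 1) ∧ (∀ w ∈ ball (0:ℂ) 1, ‖g w‖ ≤ 1) ∧
  ∀ h : ℂ → ℂ, DifferentiableOn ℂ h (ball 0 1) →
    (∀ w ∈ ball (0:ℂ) 1, ‖g w + h w‖ ≤ 1 ∧ ‖g w - h w‖ ≤ 1) → ∀ w ∈ ball (0:ℂ) 1, h w = 0

/-- The mean of `-log (1 - |g|)` over the circle of radius `r`. -/
def logMean (g : ℂ → ℂ) (r : ℝ) : ℝ :=
  Real.circleAverage (fun w => -Real.log (1 - ‖g w‖)) 0 r

/-! ### Statements of the steps -/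

/-- Every Blaschke sequence is annihilated by a bounded analytic function which is not zero. -/
def S_B : Prop := ∀ z : ℕ → ℂ, IsBlaschkeSequence z →
  ∃ B : ℂ → ℂ, DifferentiableOn ℂ B (ball 0 1) ∧ (∀ w ∈ ball (0:ℂ) 1, ‖B w‖ ≤ 1) ∧
    (∀ n, B (z n) = 0) ∧ ∃ w ∈ ball (0:ℂ) 1, B w ≠ 0

/-- If the means of `-log (1 - |g|)` are bounded there is `h ≠ 0` with `|g| + |h| ≤ 1`. -/
def S_H : Prop := ∀ g : ℂ → ℂ, DifferentiableOn ℂ g (ball 0 1) → (∀ w ∈ ball (0:ℂ) 1, ‖g w‖ < 1) →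
  ∀ C : ℝ, (∀ r : ℝ, 0 < r → r < 1 → logMean g r ≤ C) →
  ∃ h : ℂ → ℂ, DifferentiableOn ℂ h (ball 0 1) ∧ (∀ w ∈ ball (0:ℂ) 1, ‖g w‖ + ‖h w‖ ≤ 1) ∧
    ∃ w ∈ ball (0:ℂ) 1, h w ≠ 0

/-- If the means of `-log (1 - |g|)` are unbounded, `g` is determined, within the unit ball, by its
values on some Blaschke sequence. -/
def S_U : Prop := ∀ g : ℂ → ℂ, DifferentiableOn ℂ g (ball 0 1) → (∀ w ∈ ball (0:ℂ) 1, ‖g w‖ < 1) →
  (∀ C : ℝ, ∃ r : ℝ, 0 < r ∧ r < 1 ∧ C < logMean g r) →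
  ∃ z : ℕ → ℂ, IsBlaschkeSequence z ∧
    ∀ f : ℂ → ℂ, DifferentiableOn ℂ f (ball 0 1) → (∀ w ∈ ball (0:ℂ) 1, ‖f w‖ ≤ 1) →
      (∀ n, f (z n) = g (z n)) → Set.EqOn f g (ball 0 1)

end

end Pool.Agent.KS6_57.NP
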