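import Mathlib
import Pool.Agent.KS6_57.NP.Defs
import Pool.Agent.KS6_57.NP.Montel

/-! `S_B`: a bounded analytic function, not zero, vanishing on a Blaschke sequence (helper6): limit of finite products. -/

set_option autoImplicit false

namespace Pool.Agent.KS6_57.NP

open Complex ComplexConjugate Metric Filter Topology Finset

/-- the factor of `a` -/
noncomputable def bfac (a w : ℂ) : ℂ := if a = 0 then 1 else (a - w) / (1 - conj a * w)

theorem bden_ne {a w : ℂ} (ha : ‖a‖ < 1) (hw : ‖w‖ < 1) : 1 - conj a * w ≠ 0 := by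
  intro h
  have h1 : conj a * w = 1 := by linear_combination -h
  have h2 : ‖conj a * w‖ = 1 := by rw [h1, norm_one]
  rw [norm_mul, RCLike.norm_conj] at h2
  have := norm_nonneg a; have := norm_nonneg w
  nlinarith

theorem bfac_le {a w : ℂ} (ha : ‖a‖ < 1) (hw : ‖w‖ < 1) : ‖bfac a w‖ ≤ 1 := by
  unfold bfac
  split_ifs with h0
  · simp
  · have h1 : 0 < ‖1 - conj a * w‖ := norm_pos_iff.2 (bden_ne ha hw)
    rw [norm_div, div_le_one h1]
    have h2 : ‖a - w‖ ^ 2 ≤ ‖1 - conj a * w‖ ^ 2 := by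
      rw [← Complex.normSq_eq_norm_sq, ← Complex.normSq_eq_norm_sq, Complex.normSq_sub, Complex.normSq_sub]
      simp only [map_one, map_mul, Complex.normSq_conj, Complex.conj_conj, one_mul]
      rw [Complex.normSq_eq_norm_sq, Complex.normSq_eq_norm_sq]
      have h3 : ‖a‖ ^ 2 < 1 := by have := norm_nonneg a; nlinarith
      have h4 : ‖w‖ ^ 2 < 1 := by have := norm_nonneg w; nlinarith
      nlinarith [mul_nonneg (sub_nonneg.2 h3.le) (sub_nonneg.2 h4.le)]
    exact le_of_sq_le_sq h2 h1.le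

theorem bfac_diff {a : ℂ} (ha : ‖a‖ < 1) : DifferentiableOn ℂ (bfac a) (ball 0 1) := by
  unfold bfac
  split_ifs with h0
  · exact differentiableOn_const _
  · apply DifferentiableOn.div
    · exact (differentiableOn_const _).sub differentiableOn_id
    · exact (differentiableOn_const _).sub (differentiableOn_id.const_mul _)
    · intro w hw
      rw [mem_ball_zero_iff] at hw
      exact bden_ne ha hw

theorem bfac_self {a : ℂ} (h : a ≠ 0) : bfac a a = 0 := by
  unfold bfac; rw [if_neg h, sub_self, zero_div]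

theorem bfac_zero (a : ℂ) : ‖bfac a 0‖ = if a = 0 then 1 else ‖a‖ := by
  unfold bfac; split_ifs <;> simp

/-- Weierstrass -/
theorem prod_ge {f : ℕ → ℝ} (h0 : ∀ n, 0 ≤ f n) (h1 : ∀ n, f n ≤ 1) (s : Finset ℕ) :
    1 - ∑ n ∈ s, (1 - f n) ≤ ∏ n ∈ s, f n := by
  induction s using Finset.induction_on with
  | empty => simp
  | insert a s ha ih =>
    rw [sum_insert ha, prod_insert ha]
    have h2 : 0 ≤ ∏ n ∈ s, f n := prod_nonneg fun n _ => h0 n
    have h3 : ∏ n ∈ s, f n ≤ 1 := prod_le_one (fun n _ => h0 n) fun n _ => h1 n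
    have := h0 a; have := h1 a
    nlinarith

theorem prod_lower {f : ℕ → ℝ} (h0 : ∀ n, 0 < f n) (h1 : ∀ n, f n ≤ 1) (hs : Summable fun n => 1 - f n) :
    ∃ c : ℝ, 0 < c ∧ ∀ N, c ≤ ∏ n ∈ range N, f n := by
  have ht := hs.tendsto_sum_tsum_nat
  obtain ⟨M, hM⟩ := (ht.eventually (lt_mem_nhds (show (∑' n, (1 - f n)) - 1 / 2 < ∑' n, (1 - f n) by linarith))).exists
  refine ⟨(∏ n ∈ range M, f n) * (1 / 2), by have := prod_pos fun n (_ : n ∈ range M) => h0 n; positivity, ?_⟩
  intro N
  have hp : 0 < ∏ n ∈ range M, f n := prod_pos fun n _ => h0 n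
  rcases Nat.le_total N M with h | h
  · have h2 : ∏ n ∈ range M, f n ≤ ∏ n ∈ range N, f n := by
      obtain ⟨k, rfl⟩ := Nat.exists_eq_add_of_le h
      rw [prod_range_add]
      apply mul_le_of_le_one_right (prod_nonneg fun n _ => (h0 n).le)
      exact prod_le_one (fun n _ => (h0 _).le) fun n _ => h1 _
    linarith
  · obtain ⟨k, rfl⟩ := Nat.exists_eq_add_of_le h
    rw [prod_range_add]
    apply mul_le_mul_of_nonneg_left _ hp.le
    have h3 := prod_ge (f := fun n => f (M + n)) (fun n => (h0 _).le) (fun n => h1 _) (range k)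
    have h4 : ∑ n ∈ range (M + k), (1 - f n) ≤ ∑' n, (1 - f n) :=
      hs.sum_le_tsum _ fun n _ => by linarith [h1 n]
    rw [sum_range_add] at h4
    linarith

theorem s_b : S_B := by
  intro z ⟨_, hz1, hzs⟩
  set f : ℕ → ℂ → ℂ := fun N w => ∏ n ∈ range N, bfac (z n) w with hf
  have hfd : ∀ N, DifferentiableOn ℂ (f N) (ball 0 1) := by
    intro N
    exact DifferentiableOn.fun_finsetProd fun n _ => bfac_diff (hz1 n)
  have hfn : ∀ N, ∀ w ∈ ball (0:ℂ) 1, ‖f N w‖ ≤ 1 := by
    intro N w hw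
    rw [mem_ball_zero_iff] at hw
    simp only [hf]
    rw [norm_prod]
    exact prod_le_one (fun n _ => norm_nonneg _) fun n _ => bfac_le (hz1 n) hw
  obtain ⟨σ, hσ, h, hlim⟩ := Pool.Agent.KS6_57.NP.Montel.montel hfd (fun R hR => ⟨1, fun k z hz =>
    hfn k z (by rw [mem_ball_zero_iff]; linarith)⟩)
  have hpt : ∀ w ∈ ball (0:ℂ) 1, Tendsto (fun k => f (σ k) w) atTop (𝓝 (h w)) :=
    fun w hw => hlim.tendsto_at hw
  have hd : DifferentiableOn ℂ h (ball 0 1) :=
    hlim.differentiableOn (Eventually.of_forall fun k => hfd (σ k)) isOpen_ball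
  have hh0 : h 0 ≠ 0 := by
    obtain ⟨c, hc0, hc⟩ := prod_lower (f := fun n => if z n = 0 then 1 else ‖z n‖)
      (fun n => by
        split_ifs with h0
        · norm_num
        · exact norm_pos_iff.2 h0)
      (fun n => by
        split_ifs
        · exact le_rfl
        · exact (hz1 n).le)
      (by
        refine Summable.of_nonneg_of_le (fun n => ?_) (fun n => ?_) hzs
        · split_ifs
          · simp
          · linarith [hz1 n]
        · split_ifs with h0
          · rw [h0]; simp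
          · exact le_rfl)
    have h1 : ∀ N, c ≤ ‖f N 0‖ := by
      intro N
      refine (hc N).trans (le_of_eq ?_)
      simp only [hf]
      rw [norm_prod]
      exact prod_congr rfl fun n _ => (bfac_zero (z n)).symm
    have h2 := ge_of_tendsto (hpt 0 (by simp)).norm (Eventually.of_forall fun k => h1 (σ k))
    intro h3
    rw [h3, norm_zero] at h2
    linarith
  have hvan : ∀ n, z n ≠ 0 → h (z n) = 0 := by
    intro n hn
    have hzb : z n ∈ ball (0:ℂ) 1 := by rw [mem_ball_zero_iff]; exact hz1 n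
    have h1 : ∀ᶠ k in atTop, f (σ k) (z n) = 0 := by
      filter_upwards [eventually_ge_atTop (n + 1)] with k hk
      have h2 : n < σ k := lt_of_lt_of_le (Nat.lt_of_succ_le hk) (hσ.id_le k)
      simp only [hf]
      exact prod_eq_zero (mem_range.2 h2) (bfac_self hn)
    exact tendsto_nhds_unique ((hpt _ hzb).congr' h1 ) tendsto_const_nhds
  refine ⟨fun w => w * h w, differentiableOn_id.mul hd, ?_, ?_, ?_⟩
  · intro w hw
    rw [norm_mul]
    have h1 : ‖h w‖ ≤ 1 := le_of_tendsto (hpt w hw).norm (Eventually.of_forall fun k => hfn (σ k) w hw)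
    rw [mem_ball_zero_iff] at hw
    exact mul_le_one₀ hw.le (norm_nonneg _) h1
  · intro n
    show z n * h (z n) = 0
    by_cases h0 : z n = 0
    · rw [h0, zero_mul]
    · rw [hvan n h0, mul_zero]
  · have h1 : ContinuousAt h 0 := (hd.differentiableAt (isOpen_ball.mem_nhds (by simp))).continuousAt
    have h2 : ∀ᶠ w in 𝓝 (0:ℂ), h w ≠ 0 := h1.eventually_ne hh0
    have h3 : ∀ᶠ w in 𝓝 (0:ℂ), w ∈ ball (0:ℂ) 1 := isOpen_ball.mem_nhds (by simp)
    have h4 : ∀ᶠ w in 𝓝[≠] (0:ℂ), (h w ≠ 0 ∧ w ∈ ball (0:ℂ) 1) ∧ w ∈ ({0} : Set ℂ)ᶜ :=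
      ((h2.and h3).filter_mono nhdsWithin_le_nhds).and self_mem_nhdsWithin
    obtain ⟨w, ⟨h5, h6⟩, h7⟩ := h4.exists
    exact ⟨w, h6, mul_ne_zero h7 h5⟩

end Pool.Agent.KS6_57.NP
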