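import Mathlib
import Pool.Agent.KS6_57.NP.Defs

set_option autoImplicit false

namespace Pool.Agent.KS6_57.NP

open Complex ComplexConjugate Metric

lemma den_ne {a u : ℂ} (ha : ‖a‖ < 1) (hu : ‖u‖ ≤ 1) : 1 - conj a * u ≠ 0 := by
  intro h
  have h1 : conj a * u = 1 := by linear_combination -h
  have h2 : ‖a‖ * ‖u‖ = 1 := by
    have := congrArg norm h1
    rwa [norm_mul, RCLike.norm_conj, norm_one] at this
  nlinarith [norm_nonneg a, norm_nonneg u]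

lemma key_id (a u : ℂ) : ‖1 - conj a * u‖ ^ 2 - ‖u - a‖ ^ 2 = (1 - ‖a‖ ^ 2) * (1 - ‖u‖ ^ 2) := by
  simp only [← Complex.normSq_eq_norm_sq, Complex.normSq_apply]
  simp
  ring

lemma mob_le {a u : ℂ} (ha : ‖a‖ < 1) (hu : ‖u‖ ≤ 1) : ‖(u - a) / (1 - conj a * u)‖ ≤ 1 := by
  have h0 := den_ne ha hu
  rw [norm_div, div_le_one (norm_pos_iff.2 h0)]
  have h1 := key_id a u
  have h2 : 0 ≤ (1 - ‖a‖ ^ 2) * (1 - ‖u‖ ^ 2) := by
    refine mul_nonneg ?_ ?_ <;> nlinarith [norm_nonneg a, norm_nonneg u]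
  nlinarith [norm_nonneg (u - a), norm_nonneg (1 - conj a * u)]

lemma mob_lt {a u : ℂ} (ha : ‖a‖ < 1) (hu : ‖u‖ < 1) : ‖(u - a) / (1 - conj a * u)‖ < 1 := by
  have h0 := den_ne ha hu.le
  rw [norm_div, div_lt_one (norm_pos_iff.2 h0)]
  have h1 := key_id a u
  have h2 : 0 < (1 - ‖a‖ ^ 2) * (1 - ‖u‖ ^ 2) := by
    refine mul_pos ?_ ?_ <;> nlinarith [norm_nonneg a, norm_nonneg u]
  nlinarith [norm_nonneg (u - a), norm_nonneg (1 - conj a * u)]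

/-- The Schwarz-Pick inequality. -/
lemma schwarz_pick {f : ℂ → ℂ} (hf : DifferentiableOn ℂ f (ball 0 1))
    (hb : ∀ w ∈ ball (0:ℂ) 1, ‖f w‖ ≤ 1) {z w : ℂ} (hz : ‖z‖ < 1) (hw : ‖w‖ < 1)
    (hfw : ‖f w‖ < 1) :
    ‖f z - f w‖ ≤ ‖(z - w) / (1 - conj w * z)‖ * ‖1 - conj (f w) * f z‖ := by
  set a := f w with ha
  -- the Moebius map `ψ`, `ψ 0 = w`
  set ψ : ℂ → ℂ := fun ζ => (ζ - (-w)) / (1 - conj (-w) * ζ) with hψ
  have hw' : ‖-w‖ < 1 := by rwa [norm_neg]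
  have hψball : ∀ ζ ∈ ball (0:ℂ) 1, ψ ζ ∈ ball (0:ℂ) 1 := by
    intro ζ hζ
    rw [mem_ball_zero_iff] at hζ ⊢
    exact mob_lt hw' hζ
  have hψd : DifferentiableOn ℂ ψ (ball 0 1) := by
    intro ζ hζ
    rw [mem_ball_zero_iff] at hζ
    have h0 := den_ne hw' hζ.le
    refine DifferentiableAt.differentiableWithinAt ?_
    exact ((differentiableAt_id.sub_const _).div
      ((differentiableAt_const _).sub ((differentiableAt_const _).mul differentiableAt_id)) h0)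
  have hψ0 : ψ 0 = w := by simp [hψ]
  set F : ℂ → ℂ := fun ζ => (f (ψ ζ) - a) / (1 - conj a * f (ψ ζ)) with hF
  have hFd : DifferentiableOn ℂ F (ball 0 1) := by
    have h1 : DifferentiableOn ℂ (fun ζ => f (ψ ζ)) (ball 0 1) := hf.comp hψd hψball
    refine (h1.sub_const _).div ((differentiableOn_const _).sub ((differentiableOn_const _).mul h1)) ?_
    intro ζ hζ
    exact den_ne hfw (hb _ (hψball ζ hζ))
  have hFb : Set.MapsTo F (ball 0 1) (closedBall 0 1) := by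
    intro ζ hζ
    rw [mem_closedBall_zero_iff]
    exact mob_le hfw (hb _ (hψball ζ hζ))
  have hF0 : F 0 = 0 := by simp [hF, hψ0, ha]
  set ζ : ℂ := (z - w) / (1 - conj w * z) with hζ
  have hζ1 : ‖ζ‖ < 1 := mob_lt hw hz
  have hψζ : ψ ζ = z := by
    have h1 : 1 - conj w * z ≠ 0 := den_ne hw hz.le
    have h2 : 1 - conj w * w ≠ 0 := den_ne hw hw.le
    simp only [hψ, hζ, map_neg]
    have h3 : 1 - -conj w * ((z - w) / (1 - conj w * z)) = (1 - conj w * w) / (1 - conj w * z) := by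
      rw [eq_div_iff h1, sub_mul, neg_mul, neg_mul, mul_assoc, div_mul_cancel₀ _ h1]
      ring
    have h4 : (z - w) / (1 - conj w * z) - -w = z * (1 - conj w * w) / (1 - conj w * z) := by
      rw [eq_div_iff h1, sub_mul, div_mul_cancel₀ _ h1]
      ring
    rw [h3, h4, div_div_div_cancel_right₀ h1, mul_div_assoc, div_self h2, mul_one]
  have hS : ‖F ζ‖ ≤ ‖ζ‖ :=
    Complex.norm_le_norm_of_mapsTo_ball hFd hFb hF0 (by simpa using hζ1)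
  have h5 : F ζ = (f z - a) / (1 - conj a * f z) := by simp only [hF, hψζ]
  have h6 : 1 - conj a * f z ≠ 0 := den_ne hfw (hb z (mem_ball_zero_iff.2 hz))
  rw [h5, norm_div, div_le_iff₀ (norm_pos_iff.2 h6)] at hS
  exact hS

/-- Two points of a circle at a distance of at most `A (1 - r)`. -/
lemma close_of_pick {f : ℂ → ℂ} (hf : DifferentiableOn ℂ f (ball 0 1))
    (hb : ∀ w ∈ ball (0:ℂ) 1, ‖f w‖ ≤ 1) {r : ℝ} (hr1 : r < 1) {z w : ℂ}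
    (hz : ‖z‖ = r) (hw : ‖w‖ = r) (hfw : ‖f w‖ < 1) {A : ℝ} (hA : 1 ≤ A)
    (hzw : ‖z - w‖ ≤ A * (1 - r)) : ‖f z - f w‖ ≤ 36 * A ^ 2 * (1 - ‖f w‖) := by
  have hr0 : 0 ≤ r := hz ▸ norm_nonneg z
  have hz1 : ‖z‖ < 1 := hz ▸ hr1
  have hw1 : ‖w‖ < 1 := hw ▸ hr1
  have h1 := schwarz_pick hf hb hz1 hw1 hfw
  set ρ : ℝ := ‖(z - w) / (1 - conj w * z)‖ with hρ
  set x : ℝ := ‖f z - f w‖ with hx
  set a : ℂ := f w with ha
  have hx0 : 0 ≤ x := norm_nonneg _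
  have hρ0 : 0 ≤ ρ := norm_nonneg _
  have hρ1 : ρ < 1 := mob_lt hw1 hz1
  -- the right-hand side
  have h2 : ‖1 - conj a * f z‖ ≤ (1 - ‖a‖ ^ 2) + x := by
    have e : 1 - conj a * f z = ((1 - ‖a‖ ^ 2 : ℝ) : ℂ) - conj a * (f z - a) := by
      have : conj a * a = ((‖a‖ ^ 2 : ℝ) : ℂ) := by
        rw [mul_comm, Complex.mul_conj, Complex.normSq_eq_norm_sq]
      push_cast at this ⊢
      linear_combination -this
    rw [e]
    refine (norm_sub_le _ _).trans ?_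
    rw [norm_mul, RCLike.norm_conj, Complex.norm_real, Real.norm_of_nonneg (by nlinarith [norm_nonneg a])]
    have : ‖a‖ * x ≤ x := by nlinarith
    linarith
  have hx1 : x * (1 - ρ) ≤ 1 - ‖a‖ ^ 2 := by
    have h3 : x ≤ ρ * ((1 - ‖a‖ ^ 2) + x) := h1.trans (mul_le_mul_of_nonneg_left h2 hρ0)
    have h4 : 0 ≤ 1 - ‖a‖ ^ 2 := by nlinarith [norm_nonneg a]
    nlinarith
  -- the pseudo-hyperbolic distance
  have hD : 1 - conj w * z ≠ 0 := den_ne hw1 hz1.le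
  set D : ℝ := ‖1 - conj w * z‖ with hDdef
  have hD0 : 0 < D := norm_pos_iff.2 hD
  have hρD : ρ * D = ‖z - w‖ := by
    rw [hρ, norm_div, ← hDdef, div_mul_cancel₀ _ hD0.ne']
  have hid := key_id w z
  rw [hz, hw] at hid
  have hDle : D ≤ 3 * A * (1 - r) := by
    have e : 1 - conj w * z = ((1 - r ^ 2 : ℝ) : ℂ) - conj w * (z - w) := by
      have : conj w * w = ((r ^ 2 : ℝ) : ℂ) := by
        rw [mul_comm, Complex.mul_conj, Complex.normSq_eq_norm_sq, hw]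
      push_cast at this ⊢
      linear_combination -this
    rw [hDdef, e]
    refine (norm_sub_le _ _).trans ?_
    rw [norm_mul, RCLike.norm_conj, Complex.norm_real, hw, Real.norm_of_nonneg (by nlinarith)]
    have h5 : r * ‖z - w‖ ≤ ‖z - w‖ := by nlinarith [norm_nonneg (z - w)]
    have h6 : 1 - r ^ 2 ≤ 2 * (1 - r) := by nlinarith
    nlinarith
  have h7 : (1 - r) ^ 2 ≤ 2 * (1 - ρ) * D ^ 2 := by
    have h8 : D ^ 2 - (ρ * D) ^ 2 = (1 - r ^ 2) * (1 - r ^ 2) := by rw [hρD]; exact hid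
    have h9 : (1 - r) ^ 2 ≤ (1 - r ^ 2) * (1 - r ^ 2) := by nlinarith [mul_nonneg hr0 (by linarith : 0 ≤ 1 - r)]
    have h10 : D ^ 2 - (ρ * D) ^ 2 = (1 - ρ) * (1 + ρ) * D ^ 2 := by ring
    have h11 : (1 - ρ) * (1 + ρ) * D ^ 2 ≤ 2 * (1 - ρ) * D ^ 2 := by
      have : 0 ≤ (1 - ρ) * D ^ 2 := mul_nonneg (by linarith) (by positivity)
      nlinarith
    linarith
  have h12 : D ^ 2 ≤ (3 * A * (1 - r)) ^ 2 := pow_le_pow_left₀ hD0.le hDle 2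
  have hr1' : 0 < (1 - r) ^ 2 := pow_pos (by linarith) 2
  have h13 : 1 ≤ 18 * A ^ 2 * (1 - ρ) := by
    have h14 : (1 - r) ^ 2 ≤ 2 * (1 - ρ) * (3 * A * (1 - r)) ^ 2 :=
      h7.trans (mul_le_mul_of_nonneg_left h12 (by linarith))
    have h15 : 2 * (1 - ρ) * (3 * A * (1 - r)) ^ 2 = (18 * A ^ 2 * (1 - ρ)) * (1 - r) ^ 2 := by ring
    rw [h15] at h14
    by_contra h16
    push Not at h16
    nlinarith
  have h17 : 1 - ‖a‖ ^ 2 ≤ 2 * (1 - ‖a‖) := by nlinarith [norm_nonneg a]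
  calc x = x * 1 := (mul_one x).symm
    _ ≤ x * (18 * A ^ 2 * (1 - ρ)) := mul_le_mul_of_nonneg_left h13 hx0
    _ = 18 * A ^ 2 * (x * (1 - ρ)) := by ring
    _ ≤ 18 * A ^ 2 * (2 * (1 - ‖a‖)) := by
        refine mul_le_mul_of_nonneg_left (hx1.trans h17) (by positivity)
    _ = _ := by ring

/-- Lower bound for `1 - |g|`. -/
lemma one_sub_ge {g : ℂ → ℂ} (hg : DifferentiableOn ℂ g (ball 0 1))
    (hb : ∀ w ∈ ball (0:ℂ) 1, ‖g w‖ < 1) {z : ℂ} (hz : ‖z‖ < 1) :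
    (1 - ‖g 0‖) / 4 * (1 - ‖z‖) ≤ 1 - ‖g z‖ := by
  have h0 : ‖g 0‖ < 1 := hb 0 (by simp)
  have h1 := schwarz_pick hg (fun w hw => (hb w hw).le) hz (show ‖(0:ℂ)‖ < 1 by simp) h0
  simp only [sub_zero, map_zero, zero_mul, div_one] at h1
  set a := g 0
  set u := g z with hu
  have hu1 : ‖u‖ < 1 := hb z (mem_ball_zero_iff.2 hz)
  have h2 := key_id a u
  have h3 : ‖u - a‖ ^ 2 ≤ (‖z‖ * ‖1 - conj a * u‖) ^ 2 := pow_le_pow_left₀ (norm_nonneg _) h1 2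
  have h4 : ‖1 - conj a * u‖ ≥ 1 - ‖a‖ := by
    have := norm_sub_norm_le (1 : ℂ) (conj a * u)
    rw [norm_one, norm_mul, RCLike.norm_conj] at this
    nlinarith [norm_nonneg a, norm_nonneg u]
  -- `(1 - |z|²) |1 - conj a u|² ≤ (1 - |a|²) (1 - |u|²)`
  have h5 : (1 - ‖z‖ ^ 2) * ‖1 - conj a * u‖ ^ 2 ≤ (1 - ‖a‖ ^ 2) * (1 - ‖u‖ ^ 2) := by nlinarith
  have h6 : (1 - ‖a‖) ^ 2 ≤ ‖1 - conj a * u‖ ^ 2 := pow_le_pow_left₀ (by linarith) h4 2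
  have hz0 := norm_nonneg z
  have ha0 := norm_nonneg a
  have hu0 := norm_nonneg u
  have h7 : (1 - ‖z‖) * (1 - ‖a‖) ^ 2 ≤ (1 - ‖z‖ ^ 2) * ‖1 - conj a * u‖ ^ 2 := by
    refine mul_le_mul ?_ h6 (by positivity) (by nlinarith)
    nlinarith
  have h8 : (1 - ‖a‖ ^ 2) * (1 - ‖u‖ ^ 2) ≤ (1 - ‖a‖) * (4 * (1 - ‖u‖)) := by
    have e1 : 1 - ‖a‖ ^ 2 = (1 - ‖a‖) * (1 + ‖a‖) := by ring
    have e2 : 1 - ‖u‖ ^ 2 = (1 - ‖u‖) * (1 + ‖u‖) := by ring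
    rw [e1, e2]
    have e4 : (1 + ‖a‖) * (1 + ‖u‖) ≤ 4 := by nlinarith
    have e3 : (1 + ‖a‖) * ((1 - ‖u‖) * (1 + ‖u‖)) ≤ 4 * (1 - ‖u‖) := by
      have := mul_le_mul_of_nonneg_right e4 (show 0 ≤ 1 - ‖u‖ by linarith)
      linarith
    calc (1 - ‖a‖) * (1 + ‖a‖) * ((1 - ‖u‖) * (1 + ‖u‖)) =
        (1 - ‖a‖) * ((1 + ‖a‖) * ((1 - ‖u‖) * (1 + ‖u‖))) := by ring
      _ ≤ _ := mul_le_mul_of_nonneg_left e3 (by linarith)
  have h9 : (1 - ‖a‖) * ((1 - ‖z‖) * (1 - ‖a‖)) ≤ (1 - ‖a‖) * (4 * (1 - ‖u‖)) := by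
    calc (1 - ‖a‖) * ((1 - ‖z‖) * (1 - ‖a‖)) = (1 - ‖z‖) * (1 - ‖a‖) ^ 2 := by ring
      _ ≤ _ := h7.trans (h5.trans h8)
  have h10 : (1 - ‖z‖) * (1 - ‖a‖) ≤ 4 * (1 - ‖u‖) := le_of_mul_le_mul_left h9 (by linarith)
  linarith

end Pool.Agent.KS6_57.NP
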