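import Mathlib
import Pool.Agent.KS6_57.NP.SP

set_option autoImplicit false

namespace Pool.Agent.KS6_57.NP

open Complex ComplexConjugate Metric Finset

/-- the number of arcs of level `k` -/
noncomputable def na (r : ℝ) (k : ℕ) : ℕ := ⌈4 * Real.pi / (2 ^ k * (1 - r))⌉₊

/-- the arc `j` of level `k` contains the argument `φ` of a point where `1 - |g| ≤ 16^(-k)` -/
def Hit (g : ℂ → ℂ) (r : ℝ) (k j : ℕ) (φ : ℝ) : Prop :=
  |(φ + Real.pi) - 2 * Real.pi * j / na r k| ≤ 2 * Real.pi / na r k ∧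
    1 - ‖g (circleMap 0 r φ)‖ ≤ 1 / 16 ^ k

open Classical in
/-- the chosen point -/
noncomputable def pt (g : ℂ → ℂ) (r : ℝ) (k j : ℕ) : ℂ :=
  if h : ∃ φ, Hit g r k j φ then circleMap 0 r h.choose else circleMap 0 r 0

lemma norm_pt (g : ℂ → ℂ) {r : ℝ} (hr : 0 < r) (k j : ℕ) : ‖pt g r k j‖ = r := by
  unfold pt
  split_ifs <;> simp [abs_of_pos hr]

lemma circle_lip (r : ℝ) (hr0 : 0 < r) (hr1 : r < 1) (θ φ : ℝ) :
    ‖circleMap 0 r θ - circleMap 0 r φ‖ ≤ |θ - φ| := by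
  have h := (lipschitzWith_circleMap (0:ℂ) r).dist_le_mul θ φ
  rw [dist_eq_norm, Real.dist_eq] at h
  have h2 : ((Real.nnabs r : NNReal) : ℝ) = r := by simp [abs_of_pos hr0]
  rw [h2] at h
  exact h.trans (by nlinarith [abs_nonneg (θ - φ)])

lemma circle_arg {r : ℝ} {z : ℂ} (hz : ‖z‖ = r) : circleMap 0 r (arg z) = z := by
  rw [circleMap_zero, ← hz]
  exact Complex.norm_mul_exp_arg_mul_I z

lemma near_pt {g : ℂ → ℂ} (hg : DifferentiableOn ℂ g (ball 0 1))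
    (hb : ∀ w ∈ ball (0:ℂ) 1, ‖g w‖ < 1) {r : ℝ} (hr0 : 0 < r) (hr1 : r < 1) (k : ℕ)
    {z : ℂ} (hz : ‖z‖ = r) (hδ : 1 - ‖g z‖ ≤ 1 / 16 ^ k) :
    ∃ j ∈ range (na r k + 1), ‖z - pt g r k j‖ ≤ 2 ^ k * (1 - r) ∧
      1 - ‖g (pt g r k j)‖ ≤ 1 / 16 ^ k := by
  have h1r : 0 < 1 - r := by linarith
  have hπ := Real.pi_pos
  set n : ℕ := na r k with hn
  have hn1 : 4 * Real.pi / (2 ^ k * (1 - r)) ≤ n := Nat.le_ceil _
  have hn0 : (0 : ℝ) < n := lt_of_lt_of_le (by positivity) hn1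
  set θ : ℝ := arg z with hθ
  have hθ1 : 0 < θ + Real.pi := by linarith [Complex.neg_pi_lt_arg z]
  have hθ2 : θ + Real.pi ≤ 2 * Real.pi := by linarith [Complex.arg_le_pi z]
  set j : ℕ := ⌊(θ + Real.pi) * n / (2 * Real.pi)⌋₊ with hj
  have hx0 : 0 ≤ (θ + Real.pi) * n / (2 * Real.pi) := by positivity
  have hj1 : (j : ℝ) ≤ (θ + Real.pi) * n / (2 * Real.pi) := Nat.floor_le hx0
  have hj2 : (θ + Real.pi) * n / (2 * Real.pi) < j + 1 := Nat.lt_floor_add_one _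
  have hjn : j ≤ n := by
    have : (j : ℝ) ≤ n := by
      refine hj1.trans ?_
      rw [div_le_iff₀ (by positivity)]
      nlinarith
    exact_mod_cast this
  have hHθ : Hit g r k j θ := by
    refine ⟨?_, by rw [circle_arg hz]; exact hδ⟩
    rw [← hn]
    rw [le_div_iff₀ (by positivity)] at hj1
    rw [div_lt_iff₀ (by positivity)] at hj2
    rw [abs_le]
    constructor
    · rw [← sub_nonneg]
      have : (θ + Real.pi - 2 * Real.pi * j / n) - -(2 * Real.pi / n) =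
          ((θ + Real.pi) * n - 2 * Real.pi * j + 2 * Real.pi) / n := by field_simp; ring
      rw [this]
      apply div_nonneg _ hn0.le
      nlinarith
    · rw [← sub_nonneg]
      have : 2 * Real.pi / n - (θ + Real.pi - 2 * Real.pi * j / n) =
          (2 * Real.pi * (j + 1) - (θ + Real.pi) * n) / n := by field_simp; ring
      rw [this]
      apply div_nonneg _ hn0.le
      nlinarith
  have hex : ∃ φ, Hit g r k j φ := ⟨θ, hHθ⟩
  refine ⟨j, Finset.mem_range.2 (by omega), ?_⟩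
  have hpt : pt g r k j = circleMap 0 r hex.choose := by rw [pt, dif_pos hex]
  have hH := hex.choose_spec
  rw [hpt]
  set φ := hex.choose
  refine ⟨?_, hH.2⟩
  have hd : |θ - φ| ≤ 4 * Real.pi / n := by
    have e : θ - φ = (θ + Real.pi - 2 * Real.pi * j / n) - (φ + Real.pi - 2 * Real.pi * j / n) := by ring
    rw [e]
    refine (abs_sub _ _).trans ?_
    have h5 := hHθ.1
    have h6 := hH.1
    rw [← hn] at h5 h6
    have : 4 * Real.pi / (n : ℝ) = 2 * Real.pi / n + 2 * Real.pi / n := by ring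
    linarith
  calc ‖z - circleMap 0 r φ‖ = ‖circleMap 0 r θ - circleMap 0 r φ‖ := by rw [circle_arg hz]
    _ ≤ |θ - φ| := circle_lip r hr0 hr1 θ φ
    _ ≤ 4 * Real.pi / n := hd
    _ ≤ 2 ^ k * (1 - r) := by
        rw [div_le_iff₀ (by positivity)] at hn1
        rw [div_le_iff₀ hn0]
        linarith

/-- the points of radius `r`, levels at least `K` -/
noncomputable def ZZ (g : ℂ → ℂ) (r : ℝ) (K : ℕ) : Finset ℂ :=
  insert (circleMap 0 r 0) (((Icc K ⌈1 / (1 - r)⌉₊).filter (fun k => 2 ^ k * (1 - r) ≤ 1)).biUnion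
    fun k => (range (na r k + 1)).image (pt g r k))

lemma norm_of_mem_ZZ {g : ℂ → ℂ} {r : ℝ} (hr : 0 < r) {K : ℕ} {w : ℂ} (hw : w ∈ ZZ g r K) :
    ‖w‖ = r := by
  rw [ZZ, Finset.mem_insert, Finset.mem_biUnion] at hw
  rcases hw with h | ⟨k, _, hk⟩
  · rw [h]; simp [abs_of_pos hr]
  · obtain ⟨j, _, rfl⟩ := Finset.mem_image.1 hk
    exact norm_pt g hr k j

lemma card_ZZ {g : ℂ → ℂ} {r : ℝ} (hr1 : r < 1) {K : ℕ} (hK : 1 - r ≤ 1 / 2 ^ K) :
    ((ZZ g r K).card : ℝ) * (1 - r) ≤ 33 / 2 ^ K := by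
  have h1r : 0 < 1 - r := by linarith
  have hπ := Real.pi_pos
  set S := (Icc K ⌈1 / (1 - r)⌉₊).filter (fun k => 2 ^ k * (1 - r) ≤ 1) with hS
  have h1 : ((ZZ g r K).card : ℝ) ≤ 1 + ∑ k ∈ S, ((na r k : ℝ) + 1) := by
    have h2 : (ZZ g r K).card ≤ (∑ k ∈ S, (na r k + 1)) + 1 := by
      refine (Finset.card_insert_le _ _).trans (Nat.add_le_add_right ?_ 1)
      refine Finset.card_biUnion_le.trans (Finset.sum_le_sum fun k _ => ?_)
      exact Finset.card_image_le.trans (by simp)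
    have h3 : (((ZZ g r K).card : ℕ) : ℝ) ≤ (((∑ k ∈ S, (na r k + 1)) + 1 : ℕ) : ℝ) := by
      exact_mod_cast h2
    push_cast at h3
    linarith
  have h2 : ∀ k ∈ S, ((na r k : ℝ) + 1) * (1 - r) ≤ 16 * (1 / 2) ^ k := by
    intro k hk
    have hk2 : 2 ^ k * (1 - r) ≤ 1 := (Finset.mem_filter.1 hk).2
    have h3 : (na r k : ℝ) < 4 * Real.pi / (2 ^ k * (1 - r)) + 1 :=
      Nat.ceil_lt_add_one (by positivity)
    have h4 : ((na r k : ℝ) + 1) * (1 - r) ≤ (4 * Real.pi / (2 ^ k * (1 - r)) + 2) * (1 - r) :=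
      mul_le_mul_of_nonneg_right (by linarith) h1r.le
    have h5 : (4 * Real.pi / (2 ^ k * (1 - r)) + 2) * (1 - r) =
        4 * Real.pi / 2 ^ k + 2 * (1 - r) := by field_simp
    have h6 : 1 - r ≤ 1 / 2 ^ k := by rw [le_div_iff₀ (by positivity)]; linarith
    rw [h5] at h4
    refine h4.trans ?_
    have h7 : (16 : ℝ) * (1 / 2) ^ k = 16 / 2 ^ k := by rw [div_pow, one_pow]; ring
    rw [h7]
    have h8 : Real.pi ≤ 3.5 := by linarith [Real.pi_lt_d2]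
    calc 4 * Real.pi / 2 ^ k + 2 * (1 - r) ≤ 4 * Real.pi / 2 ^ k + 2 * (1 / 2 ^ k) := by linarith
      _ = (4 * Real.pi + 2) / 2 ^ k := by ring
      _ ≤ 16 / 2 ^ k := div_le_div_of_nonneg_right (by linarith) (by positivity)
  have h3 : ∑ k ∈ S, (16 : ℝ) * (1 / 2) ^ k ≤ 32 / 2 ^ K := by
    calc ∑ k ∈ S, (16 : ℝ) * (1 / 2) ^ k ≤
        ∑ k ∈ Ico K (⌈1 / (1 - r)⌉₊ + 1), (16 : ℝ) * (1 / 2) ^ k := by
          refine Finset.sum_le_sum_of_subset_of_nonneg ?_ fun _ _ _ => by positivity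
          intro k hk
          have := Finset.mem_Icc.1 (Finset.mem_filter.1 hk).1
          rw [Finset.mem_Ico]; omega
      _ = ∑ i ∈ range (⌈1 / (1 - r)⌉₊ + 1 - K), (16 : ℝ) * (1 / 2) ^ (K + i) := by
          rw [Finset.sum_Ico_eq_sum_range]
      _ = 16 / 2 ^ K * ∑ i ∈ range (⌈1 / (1 - r)⌉₊ + 1 - K), (1 / 2 : ℝ) ^ i := by
          rw [Finset.mul_sum]
          refine Finset.sum_congr rfl fun i _ => ?_
          rw [pow_add, div_pow, one_pow]; ring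
      _ ≤ 16 / 2 ^ K * 2 := mul_le_mul_of_nonneg_left (sum_geometric_two_le _) (by positivity)
      _ = _ := by ring
  calc ((ZZ g r K).card : ℝ) * (1 - r) ≤ (1 + ∑ k ∈ S, ((na r k : ℝ) + 1)) * (1 - r) :=
        mul_le_mul_of_nonneg_right h1 h1r.le
    _ = (1 - r) + ∑ k ∈ S, ((na r k : ℝ) + 1) * (1 - r) := by rw [add_mul, one_mul, Finset.sum_mul]
    _ ≤ 1 / 2 ^ K + 32 / 2 ^ K := add_le_add hK ((Finset.sum_le_sum h2).trans h3)
    _ = _ := by ring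

lemma cover {g : ℂ → ℂ} (hg : DifferentiableOn ℂ g (ball 0 1))
    (hb : ∀ w ∈ ball (0:ℂ) 1, ‖g w‖ < 1) (K : ℕ) {r : ℝ} (hr0 : 0 < r) (hr1 : r < 1)
    (hr3 : (1 - r) ^ 3 ≤ (1 - ‖g 0‖) / 4) {f : ℂ → ℂ} (hf : DifferentiableOn ℂ f (ball 0 1))
    (hfb : ∀ w ∈ ball (0:ℂ) 1, ‖f w‖ ≤ 1) (hfg : ∀ w ∈ ZZ g r K, f w = g w) {z : ℂ}
    (hz : ‖z‖ = r) : ‖f z - g z‖ ≤ 288 * 4 ^ K * √(1 - ‖g z‖) := by
  have h1r : 0 < 1 - r := by linarith
  have hz1 : ‖z‖ < 1 := hz ▸ hr1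
  have hzb : z ∈ ball (0:ℂ) 1 := mem_ball_zero_iff.2 hz1
  set δ : ℝ := 1 - ‖g z‖ with hδ
  have hδ0 : 0 < δ := by have := hb z hzb; rw [hδ]; linarith
  have hδlow : (1 - r) ^ 4 ≤ δ := by
    have h1 := one_sub_ge hg hb hz1
    rw [hz] at h1
    calc (1 - r) ^ 4 = (1 - r) ^ 3 * (1 - r) := by ring
      _ ≤ (1 - ‖g 0‖) / 4 * (1 - r) := mul_le_mul_of_nonneg_right hr3 h1r.le
      _ ≤ δ := h1
  by_cases hcase : δ ≤ 1 / 16 ^ K
  · have hex : ∃ m : ℕ, 1 / 16 ^ (K + m + 1) < δ := by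
      obtain ⟨m, hm⟩ := exists_pow_lt_of_lt_one hδ0 (show (1 / 16 : ℝ) < 1 by norm_num)
      refine ⟨m, lt_of_le_of_lt ?_ hm⟩
      rw [div_pow, one_pow]
      apply one_div_le_one_div_of_le (by positivity)
      exact pow_le_pow_right₀ (by norm_num) (by omega)
    obtain ⟨k, hKk, hk1, hk2⟩ : ∃ k, K ≤ k ∧ δ ≤ 1 / 16 ^ k ∧ 1 / 16 ^ (k + 1) < δ := by
      classical
      refine ⟨K + Nat.find hex, by omega, ?_, Nat.find_spec hex⟩
      rcases Nat.eq_zero_or_pos (Nat.find hex) with h0 | h0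
      · rw [h0]; exact hcase
      · have := Nat.find_min hex (m := Nat.find hex - 1) (by omega)
        push Not at this
        have e : K + (Nat.find hex - 1) + 1 = K + Nat.find hex := by omega
        rwa [e] at this
    have hk3 : 2 ^ k * (1 - r) ≤ 1 := by
      have h1 : (1 - r) ^ 4 ≤ (1 / 2 ^ k) ^ 4 := by
        calc (1 - r) ^ 4 ≤ 1 / 16 ^ k := hδlow.trans hk1
          _ = (1 / 2 ^ k) ^ 4 := by
            rw [div_pow, one_pow, ← pow_mul, mul_comm k 4, pow_mul]; norm_num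
      have h2 : 1 - r ≤ 1 / 2 ^ k := by
        exact (pow_le_pow_iff_left₀ h1r.le (by positivity) (by norm_num)).1 h1
      rw [le_div_iff₀ (by positivity)] at h2
      linarith
    have hkL : k ≤ ⌈1 / (1 - r)⌉₊ := by
      have h1 : (k : ℝ) < 2 ^ k := by exact_mod_cast Nat.lt_two_pow_self
      have h2 : (2 : ℝ) ^ k ≤ 1 / (1 - r) := by rw [le_div_iff₀ h1r]; exact hk3
      have h3 : (k : ℝ) ≤ ⌈1 / (1 - r)⌉₊ := (h1.le.trans h2).trans (Nat.le_ceil _)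
      exact_mod_cast h3
    obtain ⟨j, hj, hj1, hj2⟩ := near_pt hg hb hr0 hr1 k hz hk1
    set w := pt g r k j with hw
    have hwr : ‖w‖ = r := norm_pt g hr0 k j
    have hwZ : w ∈ ZZ g r K := by
      rw [ZZ, Finset.mem_insert, Finset.mem_biUnion]
      exact Or.inr ⟨k, Finset.mem_filter.2 ⟨Finset.mem_Icc.2 ⟨hKk, hkL⟩, hk3⟩,
        Finset.mem_image.2 ⟨j, hj, rfl⟩⟩
    have hfw := hfg w hwZ
    have hgw : ‖g w‖ < 1 := hb w (mem_ball_zero_iff.2 (hwr ▸ hr1))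
    have hA : (1 : ℝ) ≤ 2 ^ k := one_le_pow₀ (by norm_num)
    have h1 := close_of_pick hf hfb hr1 hz hwr (by rw [hfw]; exact hgw) hA hj1
    have h2 := close_of_pick hg (fun w hw => (hb w hw).le) hr1 hz hwr hgw hA hj1
    rw [hfw] at h1
    have h3 : ‖f z - g z‖ ≤ 72 * (2 ^ k) ^ 2 * (1 - ‖g w‖) := by
      have e : f z - g z = (f z - g w) - (g z - g w) := by ring
      rw [e]
      refine (norm_sub_le _ _).trans ?_
      linarith
    have h4 : ‖f z - g z‖ ≤ 72 / 4 ^ k := by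
      calc _ ≤ 72 * (2 ^ k) ^ 2 * (1 / 16 ^ k) :=
            h3.trans (mul_le_mul_of_nonneg_left hj2 (by positivity))
        _ = 72 / 4 ^ k := by
            have e1 : ((2 : ℝ) ^ k) ^ 2 = 4 ^ k := by rw [← pow_mul, mul_comm, pow_mul]; norm_num
            have e2 : (16 : ℝ) ^ k = 4 ^ k * 4 ^ k := by rw [← mul_pow]; norm_num
            rw [e1, e2]; field_simp
    have h5 : 1 / 4 ^ (k + 1) ≤ √δ := by
      apply Real.le_sqrt_of_sq_le
      calc (1 / 4 ^ (k + 1) : ℝ) ^ 2 = 1 / 16 ^ (k + 1) := by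
            rw [div_pow, one_pow, ← pow_mul, mul_comm (k + 1) 2, pow_mul]; norm_num
        _ ≤ δ := hk2.le
    calc ‖f z - g z‖ ≤ 72 / 4 ^ k := h4
      _ = 288 * (1 / 4 ^ (k + 1)) := by rw [pow_succ]; ring
      _ ≤ 288 * √δ := mul_le_mul_of_nonneg_left h5 (by norm_num)
      _ ≤ 288 * 4 ^ K * √δ := by
          refine mul_le_mul_of_nonneg_right ?_ (Real.sqrt_nonneg _)
          have : (1 : ℝ) ≤ 4 ^ K := one_le_pow₀ (by norm_num)
          linarith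
  · push Not at hcase
    have h1 : 1 / 4 ^ K ≤ √δ := by
      apply Real.le_sqrt_of_sq_le
      calc (1 / 4 ^ K : ℝ) ^ 2 = 1 / 16 ^ K := by
            rw [div_pow, one_pow, ← pow_mul, mul_comm K 2, pow_mul]; norm_num
        _ ≤ δ := hcase.le
    have h2 : ‖f z - g z‖ ≤ 2 := by
      refine (norm_sub_le _ _).trans ?_
      have := hfb z hzb
      have := (hb z hzb).le
      linarith
    have h3 : (1 : ℝ) ≤ 4 ^ K * √δ := by
      rw [div_le_iff₀ (by positivity)] at h1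
      linarith
    nlinarith

end Pool.Agent.KS6_57.NP
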