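import Mathlib
import Pool.Agent.KS6_57.NP.Defs
import Pool.Agent.KS6_57.NP.Montel

/-! `S_H`: if the means of `-log (1 - |g|)` are bounded there is `h ≠ 0` with `|g| + |h| ≤ 1` (helper6).
Herglotz integral of `-log (1 - |g|)` on the circle of radius `r`, the Poisson formula for `-log (1 - c g)`, Montel. -/

set_option autoImplicit false

namespace Pool.Agent.KS6_57.NP

open Complex ComplexConjugate Metric Filter Topology

theorem one_radius {g : ℂ → ℂ} (hg : DifferentiableOn ℂ g (ball 0 1)) (hb : ∀ w ∈ ball (0:ℂ) 1, ‖g w‖ < 1)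
    {r : ℝ} (hr0 : 0 < r) (hr1 : r < 1) :
    ∃ S : ℂ → ℂ, DifferentiableOn ℂ S (ball 0 r) ∧
      (∀ w ∈ ball (0:ℂ) r, -Real.log (1 - ‖g w‖) ≤ (S w).re) ∧ (S 0).re = logMean g r := by
  set s : ℂ → ℝ := fun ζ => -Real.log (1 - ‖g ζ‖) with hs_def
  have habs : |r| = r := abs_of_pos hr0
  have hcb : closedBall (0:ℂ) r ⊆ ball 0 1 := closedBall_subset_ball hr1
  have hsub : sphere (0:ℂ) |r| ⊆ ball 0 1 := by rw [habs]; exact sphere_subset_closedBall.trans hcb
  have hgc : ContinuousOn g (sphere 0 |r|) := hg.continuousOn.mono hsub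
  have hsc : ContinuousOn s (sphere 0 |r|) := by
    apply ContinuousOn.neg
    apply ContinuousOn.log
    · exact continuousOn_const.sub hgc.norm
    · intro ζ hζ
      have := hb ζ (hsub hζ)
      linarith
  have hs : CircleIntegrable s 0 r := hsc.circleIntegrable'
  have hsC : CircleIntegrable (fun ζ => ((s ζ : ℝ) : ℂ)) 0 r :=
    ContinuousOn.circleIntegrable' (Complex.continuous_ofReal.comp_continuousOn hsc)
  refine ⟨fun w => Real.circleAverage (fun ζ ↦ herglotzRieszKernel 0 w ζ • ((s ζ : ℝ) : ℂ)) 0 r,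
    differentiableOn_circleAverage_herglotzRieszKernel_smul hsC, ?_, ?_⟩
  · intro w hw
    rw [re_circleAverage_herglotzRieszKernel_smul hs hw]
    have hw1 : w ∈ ball (0:ℂ) 1 := ball_subset_ball hr1.le hw
    obtain ⟨c, hc1, hc2⟩ : ∃ c : ℂ, ‖c‖ = 1 ∧ c * g w = (‖g w‖ : ℝ) := by
      by_cases h0 : g w = 0
      · exact ⟨1, by simp, by simp [h0]⟩
      · have hn : (‖g w‖ : ℂ) ≠ 0 := by exact_mod_cast norm_ne_zero_iff.2 h0
        refine ⟨conj (g w) / ‖g w‖, ?_, ?_⟩
        · rw [norm_div, RCLike.norm_conj]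
          simp only [Complex.norm_real, norm_norm]
          exact div_self (norm_ne_zero_iff.2 h0)
        · rw [div_mul_eq_mul_div, mul_comm (conj (g w)), Complex.mul_conj, Complex.normSq_eq_norm_sq]
          push_cast
          field_simp
    have hre : ∀ ζ ∈ ball (0:ℂ) 1, 0 < (1 - c * g ζ).re := by
      intro ζ hζ
      have h1 : (c * g ζ).re ≤ ‖c * g ζ‖ := Complex.re_le_norm _
      rw [norm_mul, hc1, one_mul] at h1
      have h2 := hb ζ hζ
      rw [Complex.sub_re, Complex.one_re]
      linarith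
    set F : ℂ → ℂ := fun ζ => -Complex.log (1 - c * g ζ) with hF
    have hFd : DifferentiableOn ℂ F (ball 0 1) := by
      apply DifferentiableOn.neg
      apply DifferentiableOn.clog
      · exact (differentiableOn_const _).sub (hg.const_mul c)
      · intro ζ hζ
        exact Or.inl (hre ζ hζ)
    have hFcl : DiffContOnCl ℂ F (ball 0 r) := hFd.diffContOnCl_ball hcb
    have hP := hFcl.circleAverage_re_herglotzRieszKernel_smul hw
    have hFc : ContinuousOn F (sphere 0 |r|) := hFd.continuousOn.mono hsub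
    have hHc := continuousOn_herglotzRieszKernel_sphere (c := 0) hw
    have hHre : ContinuousOn (Complex.re ∘ herglotzRieszKernel 0 w) (sphere 0 |r|) :=
      Complex.continuous_re.comp_continuousOn hHc
    have hint : CircleIntegrable ((Complex.re ∘ herglotzRieszKernel 0 w) • F) 0 r := by
      apply ContinuousOn.circleIntegrable'
      exact hHre.smul hFc
    have h1 := Complex.reCLM.circleAverage_comp_comm hint
    rw [hP] at h1
    have hFw : (F w).re = -Real.log (1 - ‖g w‖) := by
      simp only [hF]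
      rw [Complex.neg_re, Complex.log_re, hc2]
      have h2 : (1 : ℂ) - ((‖g w‖ : ℝ) : ℂ) = ((1 - ‖g w‖ : ℝ) : ℂ) := by push_cast; ring
      rw [h2, Complex.norm_real, Real.norm_of_nonneg (by linarith [hb w hw1])]
    have h3 : -Real.log (1 - ‖g w‖) = Real.circleAverage (⇑Complex.reCLM ∘ ((Complex.re ∘ herglotzRieszKernel 0 w) • F)) 0 r := by
      rw [h1, ← hFw]; rfl
    rw [h3]
    apply Real.circleAverage_mono
    · apply ContinuousOn.circleIntegrable'
      exact Complex.reCLM.continuous.comp_continuousOn (hHre.smul hFc)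
    · apply ContinuousOn.circleIntegrable'
      exact hHre.smul hsc
    · intro ζ hζ
      have hζr : ζ ∈ sphere (0:ℂ) r := by rw [habs] at hζ; exact hζ
      have hK : 0 ≤ (herglotzRieszKernel 0 w ζ).re := by
        have h4 := le_re_herglotzRieszKernel hζr hw
        have h5 : 0 ≤ (r - ‖w - 0‖) / (r + ‖w - 0‖) := by
          have h6 : ‖w - 0‖ < r := by simpa using hw
          have h7 := norm_nonneg (w - 0)
          apply div_nonneg <;> linarith
        exact h5.trans h4
      have hFs : (F ζ).re ≤ s ζ := by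
        simp only [hF, hs_def]
        rw [Complex.neg_re, Complex.log_re]
        have h8 := hb ζ (hsub hζ)
        have h9 : 1 - ‖g ζ‖ ≤ ‖1 - c * g ζ‖ := by
          have h10 := norm_sub_norm_le (1 : ℂ) (c * g ζ)
          rw [norm_one, norm_mul, hc1, one_mul] at h10
          exact h10
        have := Real.log_le_log (by linarith) h9
        linarith
      have e1 : (⇑Complex.reCLM ∘ ((Complex.re ∘ herglotzRieszKernel 0 w) • F)) ζ
          = (herglotzRieszKernel 0 w ζ).re * (F ζ).re := by
        simp [Function.comp_apply, Pi.smul_apply', Complex.real_smul]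
      have e2 : ((Complex.re ∘ herglotzRieszKernel 0 w) • s) ζ = (herglotzRieszKernel 0 w ζ).re * s ζ := rfl
      rw [e1, e2]
      exact mul_le_mul_of_nonneg_left hFs hK
  · have h0 : (0:ℂ) ∈ ball (0:ℂ) r := by simpa using hr0
    rw [re_circleAverage_herglotzRieszKernel_smul hs h0]
    unfold logMean
    apply Real.circleAverage_congr_sphere
    intro ζ hζ
    have hζ0 : ζ ≠ 0 := by
      rintro rfl
      rw [habs] at hζ
      simp at hζ
      linarith
    have e2 : ((Complex.re ∘ herglotzRieszKernel 0 0) • s) ζ = (herglotzRieszKernel 0 0 ζ).re * s ζ := rfl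
    rw [e2]
    have e3 : herglotzRieszKernel 0 0 ζ = 1 := by
      unfold herglotzRieszKernel
      simp [hζ0]
    rw [e3, Complex.one_re, one_mul]

theorem s_h : S_H := by
  intro g hg hb C hC
  set r : ℕ → ℝ := fun k => 1 - 1 / ((k : ℝ) + 2) with hr
  have hr0 : ∀ k, 0 < r k := by
    intro k
    simp only [hr]
    have : 1 / ((k : ℝ) + 2) < 1 := by rw [div_lt_one (by positivity)]; have : (0:ℝ) ≤ k := Nat.cast_nonneg k; linarith
    linarith
  have hr1 : ∀ k, r k < 1 := by
    intro k
    simp only [hr]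
    have : 0 < 1 / ((k : ℝ) + 2) := by positivity
    linarith
  have hrt : Tendsto r atTop (𝓝 1) := by
    have h1 : Tendsto (fun k : ℕ => 1 / ((k : ℝ) + 2)) atTop (𝓝 0) :=
      tendsto_const_nhds.div_atTop (tendsto_atTop_add_const_right _ _ tendsto_natCast_atTop_atTop)
    have h2 := (tendsto_const_nhds (x := (1:ℝ))).sub h1
    simpa [hr] using h2
  choose S hSd hSre hS0 using fun k => one_radius hg hb (hr0 k) (hr1 k)
  have hmaps : ∀ k, ∀ w ∈ ball (0:ℂ) 1, (r k : ℂ) * w ∈ ball (0:ℂ) (r k) := by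
    intro k w hw
    rw [mem_ball_zero_iff] at hw ⊢
    rw [norm_mul, Complex.norm_real, Real.norm_of_nonneg (hr0 k).le]
    have := hr0 k
    nlinarith
  set f : ℕ → ℂ → ℂ := fun k w => Complex.exp (-(S k ((r k : ℂ) * w))) with hf
  have hfd : ∀ k, DifferentiableOn ℂ (f k) (ball 0 1) := by
    intro k
    apply DifferentiableOn.cexp
    apply DifferentiableOn.neg
    exact (hSd k).comp ((differentiable_id.const_mul _).differentiableOn) (fun w hw => hmaps k w hw)
  have hfn : ∀ k, ∀ w ∈ ball (0:ℂ) 1, ‖g ((r k : ℂ) * w)‖ + ‖f k w‖ ≤ 1 := by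
    intro k w hw
    have h1 := hmaps k w hw
    have h2 := hSre k _ h1
    have h3 := hb _ (ball_subset_ball (hr1 k).le h1)
    have h4 : ‖f k w‖ ≤ 1 - ‖g ((r k : ℂ) * w)‖ := by
      simp only [hf]
      rw [Complex.norm_exp, Complex.neg_re]
      calc Real.exp (-(S k ((r k : ℂ) * w)).re) ≤ Real.exp (Real.log (1 - ‖g ((r k : ℂ) * w)‖)) :=
            Real.exp_le_exp.2 (by linarith)
        _ = 1 - ‖g ((r k : ℂ) * w)‖ := Real.exp_log (by linarith)
    linarith
  obtain ⟨σ, hσ, h, hlim⟩ := Pool.Agent.KS6_57.NP.Montel.montel hfd (fun R hR => ⟨1, fun k z hz => by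
    have := hfn k z (by rw [mem_ball_zero_iff]; linarith)
    have := norm_nonneg (g ((r k : ℂ) * z))
    linarith⟩)
  have hpt : ∀ w ∈ ball (0:ℂ) 1, Tendsto (fun k => f (σ k) w) atTop (𝓝 (h w)) :=
    fun w hw => hlim.tendsto_at hw
  refine ⟨h, hlim.differentiableOn (Eventually.of_forall fun k => hfd (σ k)) isOpen_ball, ?_, 0, by simp, ?_⟩
  · intro w hw
    have hgc : Tendsto (fun k => g ((r (σ k) : ℂ) * w)) atTop (𝓝 (g w)) := by
      have h1 : ContinuousAt g w := (hg.differentiableAt (isOpen_ball.mem_nhds hw)).continuousAt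
      have h2 : Tendsto (fun k => (r (σ k) : ℂ) * w) atTop (𝓝 w) := by
        have h3 : Tendsto (fun k => (r (σ k) : ℂ)) atTop (𝓝 ((1:ℝ):ℂ)) :=
          (Complex.continuous_ofReal.tendsto 1).comp (hrt.comp hσ.tendsto_atTop)
        have h4 := h3.mul_const w
        simpa using h4
      exact h1.tendsto.comp h2
    exact le_of_tendsto (hgc.norm.add (hpt w hw).norm) (Eventually.of_forall fun k => hfn (σ k) w hw)
  · have h0 : ∀ k, Real.exp (-C) ≤ ‖f k 0‖ := by
      intro k
      simp only [hf]
      rw [mul_zero, Complex.norm_exp, Complex.neg_re, hS0 k]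
      exact Real.exp_le_exp.2 (by have := hC (r k) (hr0 k) (hr1 k); linarith)
    have h1 := ge_of_tendsto (hpt 0 (by simp)).norm (Eventually.of_forall fun k => h0 (σ k))
    intro h2
    rw [h2, norm_zero] at h1
    have := Real.exp_pos (-C)
    linarith

end Pool.Agent.KS6_57.NP
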