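import Mathlib
import Pool.Agent.KS6_57.NP.Cov

set_option autoImplicit false

namespace Pool.Agent.KS6_57.NP

open Complex ComplexConjugate Metric Finset Filter Topology Real MeromorphicOn

/-- The means of `log |F|` are bounded from below. -/
lemma jensen_lower {F : ℂ → ℂ} (hF : DifferentiableOn ℂ F (ball 0 1)) :
    ∃ c : ℝ, ∀ r : ℝ, 1 / 2 ≤ r → r < 1 → c ≤ circleAverage (fun w => Real.log ‖F w‖) 0 r := by
  have hA : AnalyticOnNhd ℂ F (ball 0 1) := hF.analyticOnNhd isOpen_ball
  set m : ℤ := ((analyticOrderAt F 0).map (↑)).untop₀ with hm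
  have hm0 : 0 ≤ m := by
    rw [hm]
    cases h : analyticOrderAt F 0 with
    | top => simp
    | coe n => simp
  refine ⟨-(m * Real.log 2) + Real.log ‖meromorphicTrailingCoeffAt F 0‖, fun r hr1 hr2 => ?_⟩
  have hr0 : 0 < r := by linarith
  have hAr : AnalyticOnNhd ℂ F (closedBall 0 |r|) := hA.mono (by
    rw [abs_of_pos hr0]; exact closedBall_subset_ball hr2)
  rw [hAr.meromorphicOn.circleAverage_log_norm hr0.ne']
  have h1 : 0 ≤ ∑ᶠ u, divisor F (closedBall 0 |r|) u * Real.log (r * ‖0 - u‖⁻¹) := by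
    refine finsum_nonneg fun u => ?_
    by_cases hu : u ∈ closedBall (0:ℂ) |r|
    · have h2 : (0 : ℝ) ≤ divisor F (closedBall 0 |r|) u := by
        have := (AnalyticOnNhd.divisor_nonneg hAr) u
        exact_mod_cast this
      refine mul_nonneg h2 ?_
      rcases eq_or_ne u 0 with h3 | h3
      · subst h3; simp
      · refine Real.log_nonneg ?_
        rw [zero_sub, norm_neg]
        have h4 : ‖u‖ ≤ r := by simpa [abs_of_pos hr0] using hu
        have h5 : 0 < ‖u‖ := norm_pos_iff.2 h3
        rw [← div_eq_mul_inv, le_div_iff₀ h5]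
        linarith
    · have : divisor F (closedBall 0 |r|) u = 0 :=
        Function.locallyFinsuppWithin.apply_eq_zero_of_notMem _ hu
      rw [this]; simp
  have h2 : divisor F (closedBall 0 |r|) 0 = m := by
    rw [hAr.divisor_apply (by simp)]
  rw [h2]
  have h3 : -(m * Real.log 2) ≤ m * Real.log r := by
    have h4 : -Real.log 2 ≤ Real.log r := by
      rw [← Real.log_inv]
      exact Real.log_le_log (by norm_num) (by linarith)
    have h5 : (0 : ℝ) ≤ m := by exact_mod_cast hm0
    nlinarith
  linarith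

lemma mean_upper {F g : ℂ → ℂ} (hF : DifferentiableOn ℂ F (ball 0 1))
    (hne : ∃ w ∈ ball (0:ℂ) 1, F w ≠ 0) (hg : DifferentiableOn ℂ g (ball 0 1))
    (hb : ∀ w ∈ ball (0:ℂ) 1, ‖g w‖ < 1) {r C : ℝ} (hr0 : 0 < r) (hr1 : r < 1) (hC : 0 < C)
    (hle : ∀ z : ℂ, ‖z‖ = r → ‖F z‖ ≤ C * √(1 - ‖g z‖)) :
    circleAverage (fun w => Real.log ‖F w‖) 0 r ≤ Real.log C - logMean g r / 2 := by
  classical
  have hA : AnalyticOnNhd ℂ F (ball 0 1) := hF.analyticOnNhd isOpen_ball
  have hsub : sphere (0:ℂ) |r| ⊆ ball 0 1 := by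
    intro w hw
    rw [mem_sphere_zero_iff_norm, abs_of_pos hr0] at hw
    rw [mem_ball_zero_iff, hw]; exact hr1
  set U : ℂ → ℝ := fun w => Real.log C + (1 / 2) * Real.log (1 - ‖g w‖) with hU
  set L : ℂ → ℝ := fun w => if F w = 0 then U w else Real.log ‖F w‖ with hL
  have hcod : {w | F w ≠ 0} ∈ codiscreteWithin (sphere (0:ℂ) |r|) := by
    rw [mem_codiscreteWithin_iff_forall_mem_nhdsNE]
    intro x hx
    have hxb := hsub hx
    rcases (hA x hxb).eventually_eq_zero_or_eventually_ne_zero with h | h
    · exfalso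
      have h2 := hA.eqOn_zero_of_preconnected_of_eventuallyEq_zero
        (convex_ball (0:ℂ) 1).isPreconnected hxb h
      obtain ⟨w, hw, hw0⟩ := hne
      exact hw0 (h2 hw)
    · filter_upwards [h] with y hy
      exact Or.inl hy
  have hEq : (fun w => Real.log ‖F w‖) =ᶠ[codiscreteWithin (sphere (0:ℂ) |r|)] L := by
    filter_upwards [hcod] with w hw
    simp only [hL, if_neg hw]
  have hint : CircleIntegrable (fun w => Real.log ‖F w‖) 0 r :=
    (hA.mono hsub).meromorphicOn.circleIntegrable_log_norm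
  have hintL : CircleIntegrable L 0 r := hint.congr_codiscreteWithin hEq
  have hcont : ContinuousOn (fun w => Real.log (1 - ‖g w‖)) (sphere (0:ℂ) |r|) := by
    refine ContinuousOn.log ?_ ?_
    · exact continuousOn_const.sub (hg.continuousOn.mono hsub).norm
    · intro w hw
      have := hb w (hsub hw)
      linarith
  have hintU : CircleIntegrable U 0 r := by
    refine ContinuousOn.circleIntegrable' ?_
    exact continuousOn_const.add (continuousOn_const.mul hcont)
  rw [circleAverage_congr_codiscreteWithin hEq hr0.ne']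
  have hmono : circleAverage L 0 r ≤ circleAverage U 0 r := by
    refine circleAverage_mono hintL hintU fun w hw => ?_
    have hwr : ‖w‖ = r := by rwa [mem_sphere_zero_iff_norm, abs_of_pos hr0] at hw
    by_cases hw0 : F w = 0
    · simp only [hL, if_pos hw0]; exact le_rfl
    · simp only [hL, if_neg hw0]
      have h1 := hle w hwr
      have h2 : 0 < 1 - ‖g w‖ := by have := hb w (hsub hw); linarith
      have h3 := Real.log_le_log (norm_pos_iff.2 hw0) h1
      rw [Real.log_mul hC.ne' (Real.sqrt_pos.2 h2).ne', Real.log_sqrt h2.le] at h3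
      simp only [hU]
      linarith
  refine hmono.trans (le_of_eq ?_)
  have hints : CircleIntegrable (fun w => -Real.log (1 - ‖g w‖)) 0 r := hcont.neg.circleIntegrable'
  have e1 : U = (fun _ => Real.log C) + (-(1 / 2) : ℝ) • (fun w => -Real.log (1 - ‖g w‖)) := by
    ext w; simp [hU]
  rw [e1, circleAverage_add (circleIntegrable_const _ _ _) hints.const_smul, circleAverage_const,
    circleAverage_smul, logMean, smul_eq_mul]
  ring

end Pool.Agent.KS6_57.NP
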