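import Mathlib
import Pool.Agent.KS6_57.NP.Defs
import Pool.Agent.KS6_57.NP.Jen

/-! `S_U`: if the means of `-log (1 - |g|)` are unbounded, `g` is determined by its values on a
suitable Blaschke sequence. -/

set_option autoImplicit false

namespace Pool.Agent.KS6_57.NP

open Complex ComplexConjugate Metric Finset Filter Topology Real

lemma contOn_log {g : ℂ → ℂ} (hg : DifferentiableOn ℂ g (ball 0 1))
    (hb : ∀ w ∈ ball (0:ℂ) 1, ‖g w‖ < 1) :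
    ContinuousOn (fun w => -Real.log (1 - ‖g w‖)) (ball (0:ℂ) 1) := by
  refine (ContinuousOn.log ?_ ?_).neg
  · exact continuousOn_const.sub hg.continuousOn.norm
  · intro w hw
    have := hb w hw
    linarith

lemma logMean_bdd {g : ℂ → ℂ} (hg : DifferentiableOn ℂ g (ball 0 1))
    (hb : ∀ w ∈ ball (0:ℂ) 1, ‖g w‖ < 1) {ρ : ℝ} (hρ1 : ρ < 1) :
    ∃ C : ℝ, ∀ r : ℝ, 0 < r → r ≤ ρ → logMean g r ≤ C := by
  have hsub : closedBall (0:ℂ) ρ ⊆ ball 0 1 := closedBall_subset_ball hρ1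
  obtain ⟨C, hC⟩ := (isCompact_closedBall (0:ℂ) ρ).bddAbove_image ((contOn_log hg hb).mono hsub)
  refine ⟨C, fun r hr0 hr1 => ?_⟩
  have hs : sphere (0:ℂ) |r| ⊆ closedBall 0 ρ := by
    rw [abs_of_pos hr0]
    exact sphere_subset_closedBall.trans (closedBall_subset_closedBall hr1)
  have hint : CircleIntegrable (fun w => -Real.log (1 - ‖g w‖)) 0 r :=
    ((contOn_log hg hb).mono (hs.trans hsub)).circleIntegrable'
  exact circleAverage_mono_on_of_le_circle hint fun x hx => hC ⟨x, hs hx, rfl⟩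

lemma exists_radius {g : ℂ → ℂ} (hg : DifferentiableOn ℂ g (ball 0 1))
    (hb : ∀ w ∈ ball (0:ℂ) 1, ‖g w‖ < 1)
    (hU : ∀ C : ℝ, ∃ r : ℝ, 0 < r ∧ r < 1 ∧ C < logMean g r) {ρ : ℝ} (hρ1 : ρ < 1) (C : ℝ) :
    ∃ r : ℝ, ρ < r ∧ 0 < r ∧ r < 1 ∧ C < logMean g r := by
  obtain ⟨C', hC'⟩ := logMean_bdd hg hb hρ1
  obtain ⟨r, hr0, hr1, hr⟩ := hU (max C C')
  refine ⟨r, ?_, hr0, hr1, lt_of_le_of_lt (le_max_left _ _) hr⟩
  by_contra h
  exact absurd (hC' r hr0 (not_lt.1 h)) (not_le.2 (lt_of_le_of_lt (le_max_right _ _) hr))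

lemma exists_level {g : ℂ → ℂ} (hg : DifferentiableOn ℂ g (ball 0 1))
    (hb : ∀ w ∈ ball (0:ℂ) 1, ‖g w‖ < 1)
    (hU : ∀ C : ℝ, ∃ r : ℝ, 0 < r ∧ r < 1 ∧ C < logMean g r) (n : ℕ) :
    ∃ r : ℝ, 1 / 2 ≤ r ∧ r < 1 ∧ 1 - r ≤ 1 / 2 ^ n ∧ (1 - r) ^ 3 ≤ (1 - ‖g 0‖) / 4 ∧
      2 * (Real.log (288 * 4 ^ n) + n) < logMean g r := by
  have h0 : ‖g 0‖ < 1 := hb 0 (by simp)
  set ε : ℝ := (1 - ‖g 0‖) / 4 with hε
  have hε0 : 0 < ε := by rw [hε]; linarith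
  have hp : (0 : ℝ) < 1 / 2 ^ n := by positivity
  obtain ⟨r, hr1, hr2, hr3, hr4⟩ := exists_radius hg hb hU
    (ρ := max (1 / 2) (max (1 - 1 / 2 ^ n) (1 - ε)))
    (by rw [max_lt_iff, max_lt_iff]; refine ⟨by norm_num, by linarith, by linarith⟩)
    (2 * (Real.log (288 * 4 ^ n) + n))
  rw [max_lt_iff, max_lt_iff] at hr1
  obtain ⟨ha, hb', hc⟩ := hr1
  refine ⟨r, ha.le, hr3, by linarith, ?_, hr4⟩
  have h1 : 0 < 1 - r := by linarith
  have h2 : 1 - r < 1 := by linarith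
  have h3 : (1 - r) ^ 3 ≤ 1 - r := by
    calc (1 - r) ^ 3 ≤ (1 - r) ^ 1 := pow_le_pow_of_le_one h1.le h2.le (by norm_num)
      _ = 1 - r := pow_one _
  linarith

lemma exists_seq (A : ℕ → Finset ℂ) (r : ℕ → ℝ) (hr2 : ∀ n, r n < 1)
    (hr3 : ∀ n, 1 - r n ≤ 1 / 2 ^ n) (hA : ∀ n, ∀ w ∈ A n, ‖w‖ = r n)
    (hne : ∀ n, (A n).Nonempty) (hcard : ∀ n, ((A n).card : ℝ) * (1 - r n) ≤ 33 / 2 ^ n) :
    ∃ z : ℕ → ℂ, IsBlaschkeSequence z ∧ ∀ n, ∀ w ∈ A n, ∃ m, z m = w := by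
  classical
  obtain ⟨Z, hZ⟩ : ∃ Z : Set ℂ, Z = ⋃ n, (A n : Set ℂ) := ⟨_, rfl⟩
  have hZc : Z.Countable := by
    rw [hZ]; exact Set.countable_iUnion fun n => (A n).countable_toSet
  have hmem' : ∀ w ∈ Z, ∃ n, w ∈ A n := fun w hw => by
    rw [hZ, Set.mem_iUnion] at hw
    exact hw
  have hmem : ∀ w : Z, ∃ n, (w : ℂ) ∈ A n := fun w => hmem' w w.2
  have hZn : ∀ w ∈ Z, ‖w‖ < 1 := fun w hw => by
    obtain ⟨n, hn⟩ := hmem' w hw
    rw [hA n w hn]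
    exact hr2 n
  have hlim : Tendsto r atTop (𝓝 1) := by
    have h1 : Tendsto (fun n : ℕ => (1 : ℝ) - 1 / 2 ^ n) atTop (𝓝 (1 - 0)) := by
      refine tendsto_const_nhds.sub ?_
      have := tendsto_pow_atTop_nhds_zero_of_lt_one (r := (1 / 2 : ℝ)) (by norm_num) (by norm_num)
      refine this.congr fun n => by rw [div_pow, one_pow]
    rw [sub_zero] at h1
    exact tendsto_of_tendsto_of_tendsto_of_le_of_le h1 tendsto_const_nhds
      (fun n => by have := hr3 n; simp only; linarith) (fun n => (hr2 n).le)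
  have hZi : Z.Infinite := by
    intro hfin
    have hcl : IsClosed (norm '' Z) := (hfin.image norm).isClosed
    have h1 : (1 : ℝ) ∈ norm '' Z := by
      refine hcl.mem_of_tendsto hlim (Eventually.of_forall fun n => ?_)
      obtain ⟨w, hw⟩ := hne n
      refine ⟨w, ?_, hA n w hw⟩
      rw [hZ, Set.mem_iUnion]
      exact ⟨n, hw⟩
    obtain ⟨w, hw, hw1⟩ := h1
    exact absurd hw1 (hZn w hw).ne
  have : Countable Z := hZc.to_subtype
  have : Infinite Z := hZi.to_subtype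
  obtain ⟨hden⟩ := nonempty_denumerable Z
  obtain ⟨e⟩ : Nonempty (ℕ ≃ Z) := ⟨(Denumerable.eqv Z).symm⟩
  have hnn : ∀ p : Σ n : ℕ, {w // w ∈ A n}, 0 ≤ 1 - ‖(p.2 : ℂ)‖ := fun p => by
    rw [hA p.1 _ p.2.2]
    have := hr2 p.1; linarith
  have hS : Summable (fun p : Σ n : ℕ, {w // w ∈ A n} => 1 - ‖(p.2 : ℂ)‖) := by
    rw [summable_sigma_of_nonneg hnn]
    refine ⟨fun n => (hasSum_fintype _).summable, ?_⟩
    refine Summable.of_nonneg_of_le (fun n => tsum_nonneg fun w => hnn ⟨n, w⟩) (fun n => ?_)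
      (f := fun n : ℕ => 33 * (1 / 2 : ℝ) ^ n)
      ((summable_geometric_of_lt_one (by norm_num) (by norm_num)).mul_left 33)
    rw [tsum_fintype]
    have h1 : ∀ w : {w // w ∈ A n}, 1 - ‖(w : ℂ)‖ = 1 - r n := fun w => by
      rw [hA n _ w.2]
    have h2 : ∑ w : {w // w ∈ A n}, (1 - ‖(w : ℂ)‖) = (A n).card * (1 - r n) := by
      rw [Finset.sum_congr rfl fun w _ => h1 w, Finset.sum_const, nsmul_eq_mul]
      simp
    have h3 := hcard n
    have h4 : (33 : ℝ) / 2 ^ n = 33 * (1 / 2 : ℝ) ^ n := by rw [div_pow, one_pow]; ring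
    rw [h4, ← h2] at h3
    exact h3
  have hsum : Summable (fun w : Z => 1 - ‖(w : ℂ)‖) := by
    choose s hs using hmem
    have hinj : Function.Injective (fun w : Z => (⟨s w, ⟨w, hs w⟩⟩ : Σ n : ℕ, {w // w ∈ A n})) := by
      intro w w' h
      have h1 := congrArg (fun p : Σ n : ℕ, {w // w ∈ A n} => (p.2 : ℂ)) h
      exact Subtype.ext h1
    have h5 := hS.comp_injective hinj
    simp only [Function.comp_def] at h5
    exact h5
  have hsum2 := hsum.comp_injective e.injective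
  simp only [Function.comp_def] at hsum2
  refine ⟨fun n => (e n : ℂ), ⟨Subtype.val_injective.comp e.injective,
    fun n => hZn _ (e n).2, hsum2⟩, fun n w hw => ?_⟩
  have hwZ : w ∈ Z := by rw [hZ, Set.mem_iUnion]; exact ⟨n, hw⟩
  exact ⟨e.symm ⟨w, hwZ⟩, by simp⟩

theorem s_u : S_U := by
  intro g hg hb hU
  choose r hr1 hr2 hr3 hr4 hr5 using exists_level hg hb hU
  have hr0 : ∀ n, 0 < r n := fun n => by have := hr1 n; linarith
  obtain ⟨z, hz, hzA⟩ := exists_seq (fun n => ZZ g (r n) n) r hr2 hr3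
    (fun n w hw => norm_of_mem_ZZ (hr0 n) hw) (fun n => Finset.insert_nonempty _ _)
    (fun n => card_ZZ (hr2 n) (hr3 n))
  refine ⟨z, hz, fun f hf hfb hfg => ?_⟩
  by_contra hne
  have hF : DifferentiableOn ℂ (fun w => f w - g w) (ball 0 1) := hf.sub hg
  have hne' : ∃ w ∈ ball (0:ℂ) 1, f w - g w ≠ 0 := by
    by_contra hcon
    push Not at hcon
    exact hne fun w hw => sub_eq_zero.1 (hcon w hw)
  obtain ⟨c, hc⟩ := jensen_lower hF
  obtain ⟨n, hn⟩ := exists_nat_gt (-c)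
  have hfZ : ∀ w ∈ ZZ g (r n) n, f w = g w := by
    intro w hw
    obtain ⟨m, hm⟩ := hzA n w hw
    rw [← hm]; exact hfg m
  have h1 := mean_upper hF hne' hg hb (hr0 n) (hr2 n) (C := 288 * 4 ^ n) (by positivity)
    fun z hz => cover hg hb n (hr0 n) (hr2 n) (hr4 n) hf hfb hfZ hz
  have h2 := hc (r n) (hr1 n) (hr2 n)
  have h3 := hr5 n
  linarith

end Pool.Agent.KS6_57.NP
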