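import Mathlib
import Pool.Agent.KS6_57.NP.Defs
import Pool.Agent.KS6_57.NP.Seq
import Pool.Agent.KS6_57.NP.Hh
import Pool.Agent.KS6_57.NP.Bl

/-! Extreme points and unique minimal-norm interpolants. -/

set_option autoImplicit false

namespace Pool.Agent.KS6_57.NP

open Complex ComplexConjugate Metric Finset Filter Topology MeasureTheory

instance : Nonempty (ball (0:ℂ) 1) := ⟨⟨0, by simp⟩⟩

lemma le_supNorm {g : ℂ → ℂ} (hg : InHinf g) {w : ℂ} (hw : w ∈ ball (0:ℂ) 1) :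
    ‖g w‖ ≤ supNorm g := by
  obtain ⟨-, M, hM⟩ := hg
  refine le_ciSup (f := fun w : ball (0:ℂ) 1 => ‖g w‖) ⟨M, ?_⟩ ⟨w, hw⟩
  rintro _ ⟨v, rfl⟩
  exact hM v v.2

lemma supNorm_congr {g h : ℂ → ℂ} (H : Set.EqOn g h (ball 0 1)) : supNorm g = supNorm h := by
  unfold supNorm
  congr 1
  funext w
  rw [H w.2]

lemma supNorm_nonneg (g : ℂ → ℂ) : 0 ≤ supNorm g := Real.iSup_nonneg fun _ => norm_nonneg _

/-- `G` is determined, within the unit ball, by its values on `z`. -/
def Det (G : ℂ → ℂ) (z : ℕ → ℂ) : Prop :=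
  ∀ f : ℂ → ℂ, DifferentiableOn ℂ f (ball 0 1) → (∀ w ∈ ball (0:ℂ) 1, ‖f w‖ ≤ 1) →
    (∀ n, f (z n) = G (z n)) → Set.EqOn f G (ball 0 1)

lemma extreme_of_det {g : ℂ → ℂ} (hg : DifferentiableOn ℂ g (ball 0 1))
    (hg1 : ∀ w ∈ ball (0:ℂ) 1, ‖g w‖ ≤ 1) {z : ℕ → ℂ} (hz : IsBlaschkeSequence z)
    (hdet : Det g z) : IsExtremePoint g := by
  refine ⟨hg, hg1, fun h hh hgh => ?_⟩
  obtain ⟨B, hB, hB1, hBz, w₀, hw₀, hBw⟩ := s_b z hz
  have hsq : ∀ w ∈ ball (0:ℂ) 1, ‖g w‖ + ‖h w‖ ^ 2 / 2 ≤ 1 := by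
    intro w hw
    obtain ⟨h1, h2⟩ := hgh w hw
    have h3 := parallelogram_law_with_norm ℝ (g w) (h w)
    have h4 : ‖g w + h w‖ * ‖g w + h w‖ ≤ 1 := by nlinarith [norm_nonneg (g w + h w)]
    have h5 : ‖g w - h w‖ * ‖g w - h w‖ ≤ 1 := by nlinarith [norm_nonneg (g w - h w)]
    nlinarith [sq_nonneg (1 - ‖g w‖)]
  set f : ℂ → ℂ := fun w => g w + h w ^ 2 / 2 * B w with hf
  have hfd : DifferentiableOn ℂ f (ball 0 1) := hg.add (((hh.pow 2).div_const 2).mul hB)
  have hf1 : ∀ w ∈ ball (0:ℂ) 1, ‖f w‖ ≤ 1 := by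
    intro w hw
    have h1 := hsq w hw
    have h2 : ‖h w ^ 2 / 2 * B w‖ ≤ ‖h w‖ ^ 2 / 2 := by
      rw [norm_mul, norm_div, norm_pow, RCLike.norm_ofNat]
      exact mul_le_of_le_one_right (by positivity) (hB1 w hw)
    exact (norm_add_le _ _).trans (by linarith)
  have hfz : ∀ n, f (z n) = g (z n) := fun n => by simp [hf, hBz n]
  have hEq := hdet f hfd hf1 hfz
  have h0 : Set.EqOn (fun w => h w ^ 2 / 2 * B w) 0 (ball 0 1) := by
    intro w hw
    have := hEq hw
    simp only [hf, add_eq_left] at this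
    simpa using this
  have h1 := AnalyticOnNhd.eq_zero_or_eq_zero_of_mul_eq_zero
    (((hh.pow 2).div_const 2).analyticOnNhd isOpen_ball) (hB.analyticOnNhd isOpen_ball)
    h0 (convex_ball (0:ℂ) 1).isPreconnected
  intro w hw
  rcases h1 with h1 | h1
  · have := h1 w hw
    simpa using this
  · exact absurd (h1 w₀ hw₀) hBw

lemma det_of_unique {f₀ g : ℂ → ℂ} {z : ℕ → ℂ} (hm : 0 < supNorm g)
    (hu : IsUniqueMinimalNormInterpolant f₀ z g) : Det (fun w => g w / supNorm g) z := by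
  intro f hf hf1 hfz
  obtain ⟨⟨hgin, hgz, hmin⟩, huniq⟩ := hu
  have hmc : (supNorm g : ℂ) ≠ 0 := by exact_mod_cast hm.ne'
  have hin : InHinf (fun w => supNorm g * f w) := by
    refine ⟨hf.const_mul _, supNorm g, fun w hw => ?_⟩
    rw [norm_mul, Complex.norm_real, Real.norm_of_nonneg hm.le]
    exact mul_le_of_le_one_right hm.le (hf1 w hw)
  have hval : ∀ n, (fun w => (supNorm g : ℂ) * f w) (z n) = f₀ (z n) := fun n => by
    simp only
    rw [hfz n, ← hgz n]
    field_simp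
  have hle : supNorm (fun w => supNorm g * f w) ≤ supNorm g := by
    refine ciSup_le fun w => ?_
    rw [norm_mul, Complex.norm_real, Real.norm_of_nonneg hm.le]
    exact mul_le_of_le_one_right hm.le (hf1 w w.2)
  have h1 := huniq _ ⟨hin, hval, fun h hh hhz => hle.trans (hmin h hh hhz)⟩
  intro w hw
  have h2 := h1 hw
  simp only at h2 ⊢
  rw [← h2]
  field_simp

lemma unique_of_det {g : ℂ → ℂ} (hg : InHinf g) {z : ℕ → ℂ} (hm : 0 < supNorm g)
    (hdet : Det (fun w => g w / supNorm g) z) : IsUniqueMinimalNormInterpolant g z g := by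
  have hmc : (supNorm g : ℂ) ≠ 0 := by exact_mod_cast hm.ne'
  have key : ∀ h : ℂ → ℂ, InHinf h → (∀ n, h (z n) = g (z n)) → supNorm h ≤ supNorm g →
      Set.EqOn h g (ball 0 1) := by
    intro h hh hhz hle
    have h1 := hdet (fun w => h w / supNorm g) (hh.1.div_const _) (fun w hw => by
      rw [norm_div, Complex.norm_real, Real.norm_of_nonneg hm.le, div_le_one hm]
      exact (le_supNorm hh hw).trans hle) (fun n => by simp only; rw [hhz n])
    intro w hw
    have h2 := h1 hw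
    simp only at h2
    rw [div_left_inj' hmc] at h2
    exact h2
  refine ⟨⟨hg, fun _ => rfl, fun h hh hhz => ?_⟩, fun h hh => ?_⟩
  · by_contra hcon
    push Not at hcon
    have := supNorm_congr (key h hh hhz hcon.le)
    linarith
  · exact key h hh.1 hh.2.1 (hh.2.2 g hg fun _ => rfl)

lemma exists_blaschke : ∃ z : ℕ → ℂ, IsBlaschkeSequence z := by
  obtain ⟨z, hz, -⟩ := exists_seq (fun n => {((1 - 1 / 2 ^ (n + 1) : ℝ) : ℂ)})
    (fun n => 1 - 1 / 2 ^ (n + 1)) (fun n => by simp only [sub_lt_self_iff]; positivity)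
    (fun n => by
      have : (1 : ℝ) / 2 ^ (n + 1) ≤ 1 / 2 ^ n := by
        apply one_div_le_one_div_of_le (by positivity)
        exact pow_le_pow_right₀ (by norm_num) (by omega)
      linarith)
    (fun n w hw => by
      rw [Finset.mem_singleton] at hw
      rw [hw, Complex.norm_real, Real.norm_of_nonneg]
      have : (1 : ℝ) / 2 ^ (n + 1) ≤ 1 := by
        rw [div_le_one (by positivity)]
        exact one_le_pow₀ (by norm_num)
      linarith)
    (fun n => Finset.singleton_nonempty _)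
    (fun n => by
      have : (1 : ℝ) / 2 ^ (n + 1) ≤ 1 / 2 ^ n := by
        apply one_div_le_one_div_of_le (by positivity)
        exact pow_le_pow_right₀ (by norm_num) (by omega)
      rw [Finset.card_singleton]
      have h2 : (1 : ℝ) / 2 ^ n ≤ 33 / 2 ^ n := div_le_div_of_nonneg_right (by norm_num) (by positivity)
      push_cast
      linarith)
  exact ⟨z, hz⟩

lemma const_of_max {g : ℂ → ℂ} (hg : DifferentiableOn ℂ g (ball 0 1))
    (hg1 : ∀ w ∈ ball (0:ℂ) 1, ‖g w‖ ≤ 1) {c : ℂ} (hc : c ∈ ball (0:ℂ) 1) (h1 : ‖g c‖ = 1) :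
    Set.EqOn g (Function.const ℂ (g c)) (ball 0 1) := by
  refine Complex.eqOn_of_isPreconnected_of_isMaxOn_norm (convex_ball (0:ℂ) 1).isPreconnected
    isOpen_ball hg hc fun w hw => ?_
  simp only [Function.comp_apply, Set.mem_ofPred_eq]
  rw [h1]; exact hg1 w hw

lemma det_of_max {g : ℂ → ℂ} (hg : DifferentiableOn ℂ g (ball 0 1))
    (hg1 : ∀ w ∈ ball (0:ℂ) 1, ‖g w‖ ≤ 1) {c : ℂ} (hc : c ∈ ball (0:ℂ) 1) (h1 : ‖g c‖ = 1)
    {z : ℕ → ℂ} (hz : IsBlaschkeSequence z) : Det g z := by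
  intro f hf hf1 hfz
  have hgc := const_of_max hg hg1 hc h1
  have hz0 : z 0 ∈ ball (0:ℂ) 1 := by simpa using hz.2.1 0
  have e1 : g (z 0) = g c := hgc hz0
  have h2 : ‖f (z 0)‖ = 1 := by rw [hfz 0, e1, h1]
  have hfc := const_of_max hf hf1 hz0 h2
  intro w hw
  rw [hfc hw, hgc hw, Function.const_apply, Function.const_apply, hfz 0, e1]

/-- For `|g| < 1`: extreme if and only if the means are unbounded. -/
lemma extreme_iff {g : ℂ → ℂ} (hg : DifferentiableOn ℂ g (ball 0 1))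
    (hb : ∀ w ∈ ball (0:ℂ) 1, ‖g w‖ < 1) :
    IsExtremePoint g ↔ ∀ C : ℝ, ∃ r : ℝ, 0 < r ∧ r < 1 ∧ C < logMean g r := by
  constructor
  · intro hext
    by_contra hcon
    push Not at hcon
    obtain ⟨C, hC⟩ := hcon
    obtain ⟨h, hh, hgh, w₀, hw₀, hne⟩ := s_h g hg hb C fun r h0 h1 => hC r h0 h1
    refine hne (hext.2.2 h hh (fun w hw => ⟨?_, ?_⟩) w₀ hw₀)
    · exact (norm_add_le _ _).trans (hgh w hw)
    · exact (norm_sub_le _ _).trans (hgh w hw)
  · intro hU
    obtain ⟨z, hz, hdet⟩ := s_u g hg hb hU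
    exact extreme_of_det hg (fun w hw => (hb w hw).le) hz hdet

lemma exists_det {g : ℂ → ℂ} (hext : IsExtremePoint g) :
    ∃ z : ℕ → ℂ, IsBlaschkeSequence z ∧ Det g z := by
  have hg := hext.1
  have hg1 := hext.2.1
  by_cases hb : ∀ w ∈ ball (0:ℂ) 1, ‖g w‖ < 1
  · exact s_u g hg hb ((extreme_iff hg hb).1 hext)
  · push Not at hb
    obtain ⟨c, hc, hc1⟩ := hb
    obtain ⟨z, hz⟩ := exists_blaschke
    exact ⟨z, hz, det_of_max hg hg1 hc (le_antisymm (hg1 c hc) hc1) hz⟩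

theorem classification (g : ℂ → ℂ) (hg : InHinf g) :
    (∃ (f : ℂ → ℂ) (z : ℕ → ℂ), InHinf f ∧ IsBlaschkeSequence z ∧
      IsUniqueMinimalNormInterpolant f z g) ↔
    (∀ w ∈ ball (0:ℂ) 1, g w = 0) ∨ IsExtremePoint (fun w => g w / supNorm g) := by
  have hnn := supNorm_nonneg g
  constructor
  · rintro ⟨f, z, hf, hz, hu⟩
    rcases hnn.eq_or_lt with h0 | h0
    · left
      intro w hw
      have := le_supNorm hg hw
      rw [← h0] at this
      exact norm_le_zero_iff.1 this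
    · right
      refine extreme_of_det (hg.1.div_const _) (fun w hw => ?_) hz (det_of_unique h0 hu)
      rw [norm_div, Complex.norm_real, Real.norm_of_nonneg hnn, div_le_one h0]
      exact le_supNorm hg hw
  · rintro (h0 | hext)
    · obtain ⟨z, hz⟩ := exists_blaschke
      have hs : supNorm g = 0 := by
        have : supNorm g = supNorm (fun _ => (0:ℂ)) := supNorm_congr fun w hw => h0 w hw
        rw [this, supNorm]
        simp
      refine ⟨g, z, hg, hz, ⟨hg, fun _ => rfl, fun h _ _ => by rw [hs]; exact supNorm_nonneg h⟩,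
        fun h hh w hw => ?_⟩
      have h1 := hh.2.2 g hg fun _ => rfl
      rw [hs] at h1
      have h2 := (le_supNorm hh.1 hw).trans h1
      rw [h0 w hw]
      exact norm_le_zero_iff.1 h2
    · obtain ⟨z, hz, hdet⟩ := exists_det hext
      refine ⟨g, z, hg, hz, unique_of_det hg ?_ hdet⟩
      rcases hnn.eq_or_lt with h0 | h0
      · exfalso
        have h1 := hext.2.2 (fun _ => 1) (differentiableOn_const _) (fun w _ => by
          rw [← h0]; simp) 0 (by simp)
        simp at h1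
      · exact h0

end Pool.Agent.KS6_57.NP
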